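import Pool.Agent.MP_af1bb3_co.Mg.Params

namespace Pool.Agent.MP_af1bb3_co

open Real Filter

theorem tendsto_L : Tendsto (fun k : ℕ => log (k : ℝ)) atTop atTop :=
  tendsto_log_atTop.comp tendsto_natCast_atTop_atTop

theorem tendsto_LL : Tendsto (fun k : ℕ => log (log (k : ℝ))) atTop atTop :=
  tendsto_log_atTop.comp tendsto_L

theorem block_exists (b e C : ℝ) (hb0 : 0 < b) (hb1 : b ≤ 1) (he0 : 0 < e) (he1 : e < 1)
    (hC : 0 < C) : ∀ᶠ k : ℕ in atTop, ∀ n : ℕ, (k : ℝ) ≤ (1 - b) * n → (n : ℝ) ≤ C * k →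
      ∀ m n' : ℕ, 0 < m → m * n ≤ n' →
      m * ((1 - 2 * e) * (log (log k) / log (n / (n - k)))) ≤ M n' k + 1 := by
  obtain ⟨η, hη⟩ : ∃ η, η = b / 2 * (1 - exp (-(e / C))) := ⟨_, rfl⟩
  have hη0 : 0 < η := by
    have hx1 : exp (-(e / C)) < 1 := by rw [exp_lt_one_iff]; have := div_pos he0 hC; linarith
    rw [hη]; have : 0 < 1 - exp (-(e / C)) := by linarith
    positivity
  filter_upwards [eventually_gt_atTop 0, tendsto_L.eventually_ge_atTop (16 / b),
    tendsto_L.eventually_ge_atTop 1, tendsto_L.eventually (ev_sq_lt_exp (12 / η) (1 / 2) (by norm_num)),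
    tendsto_L.eventually_ge_atTop (12 / η), tendsto_LL.eventually_ge_atTop 1,
    tendsto_LL.eventually (ev_sq_lt_exp (12 * C / η) 1 (by norm_num)),
    tendsto_LL.eventually (ev_sq_lt_exp (32 * C / b) e he0)] with k hk h1 h2 h3 h4 h5 h6 h7
  intro n hlo hhi m n' hm hmn
  have E1 : 16 ≤ b * log k := by rw [div_le_iff₀ hb0] at h1; linarith
  have E2 : 12 * log k ≤ η * exp (log k / 2) := by
    rw [div_mul_eq_mul_div, div_lt_iff₀ hη0, show 1 / 2 * log k = log k / 2 by ring] at h3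
    nlinarith
  have E3 : 12 ≤ η * log k := by rw [div_le_iff₀ hη0] at h4; linarith
  have E4 : 12 * C * log (log k) ≤ η * log k := by
    rw [div_mul_eq_mul_div, div_lt_iff₀ hη0, one_mul, exp_log (by linarith)] at h6
    have : log (log k) ≤ log (log k) ^ 2 := by nlinarith
    nlinarith [mul_le_mul_of_nonneg_left this hC.le]
  have E5 : C * log (log k) ^ 2 < b / 32 * exp (e * log (log k)) := by
    rw [div_mul_eq_mul_div, div_lt_iff₀ hb0] at h7
    linarith
  obtain ⟨σ, N, K, w, t, hσ, hK, hw, hfit, hkK, hn, hcount, ht⟩ :=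
    block_params k n b e C η hb0 hb1 he0 he1 hC hη hk hlo hhi E1 E2 E3 E4 E5
  have h8 := gadget_lower n' k m σ N K w t hm hσ hK hw hfit hkK
    ((Nat.mul_le_mul_left m hn).trans hmn) hcount
  have h9 : (m : ℝ) * (t + 1) ≤ M n' k + 1 := by exact_mod_cast h8
  exact (mul_le_mul_of_nonneg_left ht (by positivity)).trans h9

theorem lower_main (δ ε : ℝ) (hδ : 0 < δ) (hε : 0 < ε) : ∀ᶠ k : ℕ in atTop, ∀ n : ℕ,
    (1 + δ) * k ≤ n → (1 - ε) * (log (log k) / log (n / (n - k))) ≤ M n k := by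
  obtain ⟨C, hC⟩ : ∃ C : ℕ, 1 + δ + 8 / ε ≤ C := exists_nat_ge _
  have h8ε : 0 < 8 / ε := by positivity
  have hC1 : (1 : ℝ) < C := by linarith
  have hCε : 8 ≤ ε * C := by
    have : 8 / ε ≤ C := by linarith
    rw [div_le_iff₀ hε] at this; linarith
  have hb0 : 0 < δ / (1 + δ) := by positivity
  have hb1 : δ / (1 + δ) ≤ 1 := by rw [div_le_one (by positivity)]; linarith
  have hconv : ∀ k n : ℝ, (1 + δ) * k ≤ n → k ≤ (1 - δ / (1 + δ)) * n := by
    intro k n h
    have : (1 - δ / (1 + δ)) * n = n / (1 + δ) := by field_simp; ring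
    rw [this, le_div_iff₀ (by positivity)]; linarith
  by_cases hε1 : 1 ≤ ε
  · filter_upwards [eventually_gt_atTop 0, tendsto_LL.eventually_ge_atTop 0] with k hk h0 n hn
    have hkr : (0 : ℝ) < k := by exact_mod_cast hk
    have hkn : (k : ℝ) < n := by nlinarith
    have hlam : 0 < log ((n : ℝ) / (n - k)) :=
      lt_of_lt_of_le (div_pos hkr (by linarith)) (lam_lower hkr hkn)
    have : (0 : ℝ) ≤ M n k := by positivity
    nlinarith [div_nonneg h0 hlam.le]
  push Not at hε1
  filter_upwards [eventually_gt_atTop 0, tendsto_LL.eventually_ge_atTop (2 / (ε * δ)),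
    block_exists (δ / (1 + δ)) (ε / 8) ((C : ℝ) * C) hb0 hb1 (by positivity) (by linarith)
      (by positivity)] with k hk h0 hblock n hn
  have hkr : (0 : ℝ) < k := by exact_mod_cast hk
  have hkn : (k : ℝ) < n := by nlinarith
  have hn0 : (0 : ℝ) < n := by linarith
  have hlam1 := lam_lower hkr hkn
  have hlam : 0 < log ((n : ℝ) / (n - k)) := lt_of_lt_of_le (div_pos hkr hn0) hlam1
  have hlam2 : log ((n : ℝ) / (n - k)) ≤ 1 / δ := by
    refine (lam_upper hkr hkn).trans ?_
    rw [div_le_div_iff₀ (by linarith) hδ]; linarith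
  have hLL0 : 0 ≤ log (log (k : ℝ)) := le_trans (by positivity) h0
  obtain ⟨X, hX⟩ : ∃ X, X = log (log (k : ℝ)) / log ((n : ℝ) / (n - k)) := ⟨_, rfl⟩
  have hX0 : 0 ≤ X := by rw [hX]; positivity
  have hX1 : 1 ≤ ε / 2 * X := by
    have h1 : 2 / ε ≤ X := by
      rw [hX, le_div_iff₀ hlam]
      refine le_trans ?_ h0
      calc 2 / ε * log ((n : ℝ) / (n - k)) ≤ 2 / ε * (1 / δ) := by gcongr
        _ = 2 / (ε * δ) := by field_simp
    rw [div_le_iff₀ hε] at h1; linarith
  rw [← hX]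
  by_cases hcase : (n : ℝ) ≤ C * C * k
  · have := hblock n (hconv _ _ hn) hcase 1 n one_pos (by omega)
    rw [← hX] at this
    push_cast at this
    nlinarith
  · push Not at hcase
    have hC0 : 0 < C := by
      have : (0 : ℝ) < C := by linarith
      exact_mod_cast this
    have hCk : 0 < C * k := Nat.mul_pos hC0 hk
    obtain ⟨m, hm⟩ : ∃ m, m = n / (C * k) := ⟨_, rfl⟩
    have hm1 : m * (C * k) ≤ n := by rw [hm]; exact Nat.div_mul_le_self _ _
    have hm2 : n < (C * k) * (m + 1) := by rw [hm]; exact Nat.lt_mul_div_succ _ hCk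
    have hm2r : (n : ℝ) < C * k * (m + 1) := by exact_mod_cast hm2
    have hCkr : (0 : ℝ) < C * k := by positivity
    have hmC : (C : ℝ) < m + 1 := by
      have : (C : ℝ) * k * C < C * k * (m + 1) := by linarith
      exact lt_of_mul_lt_mul_left this hCkr.le
    have hm0 : 0 < m := by
      have : (0 : ℝ) < m := by linarith
      exact_mod_cast this
    have hb := hblock (C * k) (hconv _ _ (by push_cast; nlinarith)) (by push_cast; nlinarith)
      m n hm0 hm1
    push_cast at hb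
    have hkn' : (k : ℝ) < C * k := by nlinarith
    have hl1 := lam_upper hkr hkn'
    have hl0 : 0 < log ((C * k : ℝ) / (C * k - k)) :=
      lt_of_lt_of_le (div_pos hkr hCkr) (lam_lower hkr hkn')
    obtain ⟨l', hl'⟩ : ∃ l', l' = log ((C * k : ℝ) / (C * k - k)) := ⟨_, rfl⟩
    obtain ⟨l, hl⟩ : ∃ l, l = log ((n : ℝ) / (n - k)) := ⟨_, rfl⟩
    rw [← hl'] at hb hl1 hl0
    rw [← hl] at hX hlam hlam1
    -- compare m / l' with 1 / l
    have a1 : l' * (C - 1) ≤ 1 := by
      rw [le_div_iff₀ (by linarith)] at hl1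
      have : l' * (C - 1) * k ≤ 1 * k := by linarith
      exact le_of_mul_le_mul_right this hkr
    have a2 : 1 ≤ l * (C * (m + 1)) := by
      rw [div_le_iff₀ hn0] at hlam1
      have : 1 * (k : ℝ) ≤ l * (C * (m + 1)) * k := by nlinarith
      exact le_of_mul_le_mul_right this hkr
    have a3 : ((C : ℝ) - 1) * (m + 1) ≤ C * m := by nlinarith
    have a4 : (1 - ε / 4) * l' ≤ m * l := by
      -- multiply by C^2
      have b1 : ((C : ℝ) - 1) ≤ l * (C * C * m) := by
        have := mul_le_mul_of_nonneg_left a2 (show (0 : ℝ) ≤ C - 1 by linarith)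
        have h2 := mul_le_mul_of_nonneg_left a3 (show (0 : ℝ) ≤ l * C by positivity)
        nlinarith
      have b2 : (1 - ε / 4) * (C * C) ≤ ((C : ℝ) - 1) * (C - 1) := by nlinarith
      have b3 : (1 - ε / 4) * l' * (C * C) ≤ m * l * (C * C) := by
        have c1 := mul_le_mul_of_nonneg_left b2 hl0.le
        have c2 := mul_le_mul_of_nonneg_left a1 (show (0 : ℝ) ≤ C - 1 by linarith)
        nlinarith
      exact le_of_mul_le_mul_right b3 (by positivity)
    have a5 : (1 - ε / 4) * X ≤ m * (log (log (k : ℝ)) / l') := by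
      rw [hX, ← mul_div_assoc, ← mul_div_assoc, div_le_div_iff₀ hlam hl0]
      nlinarith [mul_le_mul_of_nonneg_left a4 hLL0]
    have a6 := mul_le_mul_of_nonneg_left a5 (show (0 : ℝ) ≤ 1 - ε / 4 by linarith)
    have a7 : (1 - ε / 2) * X ≤ (1 - ε / 4) * ((1 - ε / 4) * X) := by
      nlinarith [mul_nonneg (mul_pos hε hε).le hX0]
    nlinarith

theorem upper_main (δ ε : ℝ) (hδ : 0 < δ) (hε : 0 < ε) : ∀ᶠ k : ℕ in atTop, ∀ n : ℕ,
    (1 + δ) * k ≤ n → (M n k : ℝ) ≤ (1 + ε) * (log (log k) / log (n / (n - k))) := by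
  filter_upwards [eventually_gt_atTop 0, tendsto_L.eventually_ge_atTop 2,
    tendsto_LL.eventually_ge_atTop ((1 + 5 * ((1 + δ) / δ)) / ε)] with k hk hL hLL n hn
  have hkr : (0 : ℝ) < k := by exact_mod_cast hk
  have hkn : (k : ℝ) < n := by nlinarith
  have hn0 : (0 : ℝ) < n := by linarith
  have hlam1 := lam_lower hkr hkn
  have hlam2 := lam_upper hkr hkn
  have hexp := lam_exp hkr hkn
  obtain ⟨l, hl⟩ : ∃ l, l = log ((n : ℝ) / (n - k)) := ⟨_, rfl⟩
  rw [← hl] at hlam1 hlam2 hexp ⊢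
  have hlam : 0 < l := lt_of_lt_of_le (div_pos hkr hn0) hlam1
  have hLL0 : 0 ≤ log (log (k : ℝ)) := le_trans (by positivity) hLL
  have hq1 : 1 ≤ (n : ℝ) / k := by rw [le_div_iff₀ hkr]; linarith
  have hq2 : 1 / l ≤ (n : ℝ) / k := by
    rw [div_le_div_iff₀ hlam hkr]; rw [div_le_iff₀ hn0] at hlam1; linarith
  have hq3 : (n : ℝ) / k * l ≤ (1 + δ) / δ := by
    calc (n : ℝ) / k * l ≤ (n : ℝ) / k * (k / (n - k)) := by gcongr
      _ = n / (n - k) := by field_simp
      _ ≤ _ := by rw [div_le_div_iff₀ (by linarith) hδ]; nlinarith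
  have hpow : ∀ (x : ℝ), 0 < x → (1 - (k : ℝ) / n) ^ ⌈log x / l⌉₊ ≤ 1 / x := by
    intro x hx
    rw [hexp, ← exp_nat_mul]
    have h1 : log x / l ≤ ⌈log x / l⌉₊ := Nat.le_ceil _
    rw [div_le_iff₀ hlam] at h1
    calc exp (⌈log x / l⌉₊ * -l) ≤ exp (-log x) := exp_le_exp.2 (by linarith)
      _ = 1 / x := by rw [exp_neg, exp_log hx, one_div]
  have key : ∀ G : SimpleGraph (Fin n), G.Connected → (∀ v, k ≤ (G.neighborSet v).ncard) →
      ((connDomNum G - domNum G : ℕ) : ℝ) ≤ (1 + ε) * (log (log k) / l) := by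
    intro G hG hdeg
    have : Nonempty (Fin n) := hG.nonempty
    have hkn' : k ≤ Fintype.card (Fin n) := by
      rw [Fintype.card_fin]; exact_mod_cast hkn.le
    have h1 := dom_le hkn' hdeg ⌈log k / l⌉₊
    have h2 := conn_le hG hk hkn' hdeg ⌈log (log k + 2) / l⌉₊
    rw [Fintype.card_fin] at h1 h2
    have h3 : (domNum G : ℝ) ≤ (log k + 2) * (n / k) := by
      have a1 : (⌈log k / l⌉₊ : ℝ) < log k / l + 1 := Nat.ceil_lt_add_one (by positivity)
      have a2 := mul_le_mul_of_nonneg_left (hpow k hkr) hn0.le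
      have a3 : log k / l ≤ log k * (n / k) := by
        rw [div_eq_mul_one_div]; exact mul_le_mul_of_nonneg_left hq2 (by linarith)
      rw [mul_one_div] at a2
      linarith
    have h4 : (domNum G : ℝ) * (1 - (k : ℝ) / n) ^ ⌈log (log k + 2) / l⌉₊ ≤ n / k := by
      calc _ ≤ (log k + 2) * (n / k) * (1 / (log k + 2)) := by
            apply mul_le_mul h3 (hpow _ (by linarith)) _ (by positivity)
            rw [hexp]; positivity
        _ = n / k := by field_simp
    have h5 : log (log k + 2) ≤ log (log k) + 1 := by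
      calc log (log k + 2) ≤ log (log k * 2) := log_le_log (by linarith) (by linarith)
        _ = log (log k) + log 2 := log_mul (by linarith) (by norm_num)
        _ ≤ _ := by have := log_le_sub_one_of_pos (show (0 : ℝ) < 2 by norm_num); linarith
    have h6 : (⌈log (log k + 2) / l⌉₊ : ℝ) < log (log k + 2) / l + 1 :=
      Nat.ceil_lt_add_one (div_nonneg (log_nonneg (by linarith)) hlam.le)
    have h7 : log (log k + 2) / l + 5 * (n / k) ≤ (1 + ε) * (log (log k) / l) := by
      rw [div_le_iff₀ hε] at hLL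
      apply le_of_mul_le_mul_right _ hlam
      have e1 : (log (log k + 2) / l + 5 * (n / k)) * l = log (log k + 2) + 5 * (n / k * l) := by
        field_simp
      have e2 : (1 + ε) * (log (log k) / l) * l = (1 + ε) * log (log k) := by field_simp
      rw [e1, e2]
      linarith
    by_cases hle : domNum G ≤ connDomNum G
    · rw [Nat.cast_sub hle]; linarith
    · rw [Nat.sub_eq_zero_of_le (by omega), Nat.cast_zero]; positivity
  unfold M
  rcases Set.eq_empty_or_nonempty {x : ℕ | ∃ G : SimpleGraph (Fin n), G.Connected ∧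
    (∀ v, k ≤ (G.neighborSet v).ncard) ∧ x = connDomNum G - domNum G} with h | h
  · rw [h]; simp only [csSup_empty, Nat.bot_eq_zero, Nat.cast_zero]; positivity
  · obtain ⟨G, hG, hdeg, hx⟩ := Nat.sSup_mem h (bddAbove_gap n k)
    rw [hx]
    exact key G hG hdeg

theorem main (δ ε : ℝ) (hδ : 0 < δ) (hε : 0 < ε) : ∃ k₀ : ℕ, ∀ k n : ℕ, k₀ ≤ k →
    (1 + δ) * (k : ℝ) ≤ n →
      (1 - ε) * (log (log k) / log (n / (n - k))) ≤ M n k ∧
      (M n k : ℝ) ≤ (1 + ε) * (log (log k) / log (n / (n - k))) := by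
  obtain ⟨k₀, h⟩ := eventually_atTop.1 ((lower_main δ ε hδ hε).and (upper_main δ ε hδ hε))
  exact ⟨k₀, fun k n hk hn => ⟨(h k hk).1 n hn, (h k hk).2 n hn⟩⟩

end Pool.Agent.MP_af1bb3_co
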