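import Pool.Agent.MP_af1bb3_co.Defs

-- part MP_af1bb3_co.Gadget
section

namespace Pool.Agent.MP_af1bb3_co

open Finset

theorem bddAbove_gap (n k : ℕ) : BddAbove {x : ℕ | ∃ G : SimpleGraph (Fin n), G.Connected ∧
    (∀ v, k ≤ (G.neighborSet v).ncard) ∧ x = connDomNum G - domNum G} := by
  refine ⟨n, ?_⟩
  rintro x ⟨G, hG, -, rfl⟩
  have : connDomNum G ≤ n := by
    apply Nat.sInf_le
    refine ⟨univ, fun v hv => absurd (mem_univ v) hv, ?_, by simp⟩
    rw [coe_univ]
    exact (SimpleGraph.induceUnivIso G).connected_iff.2 hG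
  omega

theorem total_of_conn {V : Type} {G : SimpleGraph V} (hnu : ∀ u, ∃ v, v ≠ u ∧ ¬ G.Adj v u)
    {D : Finset V} (hD : IsDominating G D) (hc : (G.induce (D : Set V)).Connected) :
    ∀ v, ∃ u ∈ D, G.Adj v u := by
  intro v
  by_cases hv : v ∈ D
  · obtain ⟨x, hxv, hx⟩ := hnu v
    have : ∃ y ∈ D, y ≠ v := by
      by_cases hxD : x ∈ D
      · exact ⟨x, hxD, hxv⟩
      · obtain ⟨u, hu, hxu⟩ := hD x hxD
        exact ⟨u, hu, fun h => hx (h ▸ hxu)⟩
    obtain ⟨y, hy, hyv⟩ := this
    have : Nontrivial (D : Set V) := ⟨⟨⟨y, hy⟩, ⟨v, hv⟩, fun h => hyv (congrArg Subtype.val h)⟩⟩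
    obtain ⟨⟨u, hu⟩, h⟩ := hc.preconnected.exists_adj_of_nontrivial ⟨v, hv⟩
    exact ⟨u, hu, h⟩
  · exact hD v hv

theorem lower_transport {V : Type} [Fintype V] (G : SimpleGraph V) (n k a b : ℕ)
    (hn : Fintype.card V = n) (hG : G.Connected) (hdeg : ∀ v, k ≤ (G.neighborSet v).ncard)
    (hS : ∃ S : Finset V, IsDominating G S ∧ S.card ≤ a)
    (hnu : ∀ u, ∃ v, v ≠ u ∧ ¬ G.Adj v u)
    (htot : ∀ D : Finset V, (∀ v, ∃ u ∈ D, G.Adj v u) → b ≤ D.card) :
    b ≤ M n k + a := by
  classical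
  let e : Fin n ≃ V := (Fintype.equivFinOfCardEq hn).symm
  let G' : SimpleGraph (Fin n) := G.comap e
  have hadj : ∀ x y, G'.Adj x y ↔ G.Adj (e x) (e y) := fun x y => Iff.rfl
  have hG' : G'.Connected := (SimpleGraph.Iso.comap e G).connected_iff.2 hG
  have hdeg' : ∀ v, k ≤ (G'.neighborSet v).ncard := by
    intro v
    refine (hdeg (e v)).trans (le_of_eq ?_)
    rw [← Set.ncard_image_of_injective (G'.neighborSet v) e.injective]
    congr 1
    ext x
    simp only [SimpleGraph.mem_neighborSet, Set.mem_image, hadj]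
    constructor
    · intro h; exact ⟨e.symm x, by simpa using h, by simp⟩
    · rintro ⟨y, hy, rfl⟩; exact hy
  have h1 : domNum G' ≤ a := by
    obtain ⟨S, hS, hSa⟩ := hS
    refine le_trans (Nat.sInf_le ⟨S.map e.symm.toEmbedding, ?_, rfl⟩) (by simpa using hSa)
    intro v hv
    have : e v ∉ S := by
      intro h; apply hv
      exact mem_map.2 ⟨e v, h, by simp⟩
    obtain ⟨u, hu, huv⟩ := hS _ this
    exact ⟨e.symm u, mem_map.2 ⟨u, hu, rfl⟩, by rw [hadj]; simpa using huv⟩
  have h2 : b ≤ connDomNum G' := by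
    have hne : {m : ℕ | ∃ S : Finset (Fin n), IsDominating G' S ∧
        (G'.induce (S : Set (Fin n))).Connected ∧ S.card = m}.Nonempty := by
      refine ⟨_, univ, fun v hv => absurd (mem_univ v) hv, ?_, rfl⟩
      rw [coe_univ]
      exact (SimpleGraph.induceUnivIso G').connected_iff.2 hG'
    obtain ⟨D, hD, hDc, hDm⟩ := Nat.sInf_mem hne
    have hnu' : ∀ u, ∃ v, v ≠ u ∧ ¬ G'.Adj v u := by
      intro u
      obtain ⟨v, hv, hvu⟩ := hnu (e u)
      refine ⟨e.symm v, fun h => hv (by rw [← h]; simp), ?_⟩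
      rw [hadj]; simpa using hvu
    have ht := total_of_conn hnu' hD hDc
    have := htot (D.map e.toEmbedding) (by
      intro v
      obtain ⟨u, hu, huv⟩ := ht (e.symm v)
      refine ⟨e u, mem_map.2 ⟨u, hu, rfl⟩, ?_⟩
      rw [hadj] at huv; simpa using huv)
    rw [card_map] at this
    exact this.trans (le_of_eq hDm)
  have h3 : connDomNum G' - domNum G' ≤ M n k :=
    le_csSup (bddAbove_gap n k) ⟨G', hG', hdeg', rfl⟩
  omega

theorem exists_family (N K t σ : ℕ) (htN : t ≤ N)
    (h : N.choose t * (N.choose K - (N - t).choose K) ^ σ < (N.choose K) ^ σ) :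
    ∃ T : Fin σ → Finset (Fin N), (∀ s, (T s).card = K) ∧
      ∀ R : Finset (Fin N), R.card ≤ t → ∃ s, Disjoint (T s) R := by
  classical
  let P : Finset (Finset (Fin N)) := powersetCard K univ
  have hP : P.card = N.choose K := by simp [P]
  let Ω : Finset (Fin σ → Finset (Fin N)) := Fintype.piFinset (fun _ => P)
  let Bad : Finset (Fin N) → Finset (Fin σ → Finset (Fin N)) :=
    fun R => Fintype.piFinset (fun _ => P.filter (fun T => ¬ Disjoint T R))
  have hΩ : Ω.card = (N.choose K) ^ σ := by simp [Ω, Fintype.card_piFinset, hP]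
  have hBad : ∀ R ∈ powersetCard t (univ : Finset (Fin N)),
      (Bad R).card = (N.choose K - (N - t).choose K) ^ σ := by
    intro R hR
    have hRt : R.card = t := (mem_powersetCard.1 hR).2
    have h1 : (P.filter (fun T => Disjoint T R)).card = (N - t).choose K := by
      have : P.filter (fun T => Disjoint T R) = powersetCard K Rᶜ := by
        ext T
        simp only [P, mem_filter, mem_powersetCard, subset_univ, true_and]
        rw [and_comm, ← subset_compl_iff_disjoint_right]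
      rw [this, card_powersetCard, card_compl, hRt, Fintype.card_fin]
    have h2 := card_filter_add_card_filter_not (s := P) (fun T => Disjoint T R)
    have h3 : (P.filter (fun T => ¬ Disjoint T R)).card = N.choose K - (N - t).choose K := by omega
    simp [Bad, Fintype.card_piFinset, h3]
  have hU : ((powersetCard t (univ : Finset (Fin N))).biUnion Bad).card < Ω.card := by
    calc _ ≤ ∑ R ∈ powersetCard t (univ : Finset (Fin N)), (Bad R).card := card_biUnion_le
      _ = N.choose t * (N.choose K - (N - t).choose K) ^ σ := by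
          rw [sum_congr rfl hBad]; simp
      _ < _ := by rw [hΩ]; exact h
  obtain ⟨T, hTΩ, hT⟩ := exists_mem_notMem_of_card_lt_card hU
  have hTP : ∀ s, T s ∈ P := fun s => Fintype.mem_piFinset.1 hTΩ s
  refine ⟨T, fun s => (mem_powersetCard.1 (hTP s)).2, ?_⟩
  intro R hR
  obtain ⟨R', hRR', hR'⟩ := exists_superset_card_eq hR (by simpa using htN)
  by_contra hcon
  push Not at hcon
  apply hT
  refine mem_biUnion.2 ⟨R', mem_powersetCard.2 ⟨subset_univ _, hR'⟩, ?_⟩
  refine Fintype.mem_piFinset.2 (fun s => mem_filter.2 ⟨hTP s, fun hd => hcon s ?_⟩)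
  exact hd.mono_right hRR'

/-- Vertices: centres, their children, the blown-up clique, and spare clique vertices. -/
abbrev Vx (m σ N K w r : ℕ) : Type :=
  (Fin m × Fin σ) ⊕ (Fin m × Fin σ × {T : Finset (Fin N) // T.card = K}) ⊕
    (Fin m × Fin N × Fin w) ⊕ Fin r

section gadget

variable {m σ N K w r : ℕ}

def rel (T : Fin σ → Finset (Fin N)) : Vx m σ N K w r → Vx m σ N K w r → Prop
  | .inl a, .inr (.inl b) => a.1 = b.1 ∧ a.2 = b.2.1
  | .inl a, .inr (.inr (.inl c)) => a.1 = c.1 ∧ c.2.1 ∈ T a.2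
  | .inr (.inl b), .inr (.inr (.inl c)) => b.1 = c.1 ∧ c.2.1 ∈ b.2.2.1
  | .inr (.inr _), .inr (.inr _) => True
  | _, _ => False

def gr (T : Fin σ → Finset (Fin N)) : SimpleGraph (Vx m σ N K w r) := SimpleGraph.fromRel (rel T)

variable (T : Fin σ → Finset (Fin N))

theorem adj_centre (a : Fin m × Fin σ) (u : Vx m σ N K w r) :
    (gr T).Adj (.inl a) u ↔ (∃ X, u = .inr (.inl (a.1, a.2, X))) ∨
      (∃ j x, j ∈ T a.2 ∧ u = .inr (.inr (.inl (a.1, j, x)))) := by
  rcases u with u | ⟨i, s, X⟩ | ⟨i, j, x⟩ | u <;> simp [gr, rel] <;> aesop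

theorem adj_child (b : Fin m × Fin σ × {T : Finset (Fin N) // T.card = K}) (u : Vx m σ N K w r) :
    (gr T).Adj (.inr (.inl b)) u ↔ u = .inl (b.1, b.2.1) ∨
      (∃ j x, j ∈ b.2.2.1 ∧ u = .inr (.inr (.inl (b.1, j, x)))) := by
  rcases u with ⟨i, s⟩ | u | ⟨i, j, x⟩ | u <;> simp [gr, rel] <;> aesop

theorem adj_clique (c c' : (Fin m × Fin N × Fin w) ⊕ Fin r) (h : c ≠ c') :
    (gr (K := K) T).Adj (.inr (.inr c)) (.inr (.inr c')) := by
  simp [gr, rel, h]

theorem deg_block {k : ℕ} (hk : k ≤ K * w) (v : Vx m σ N K w r) (i : Fin m) (X : Finset (Fin N))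
    (hX : X.card = K) (h : ∀ j x, j ∈ X → (gr T).Adj v (.inr (.inr (.inl (i, j, x))))) :
    k ≤ ((gr T).neighborSet v).ncard := by
  classical
  let f : Fin N × Fin w → Vx m σ N K w r := fun p => .inr (.inr (.inl (i, p.1, p.2)))
  have hf : Function.Injective f := by
    rintro ⟨j, x⟩ ⟨j', x'⟩ h
    simpa [f] using h
  have h1 : ((X ×ˢ (univ : Finset (Fin w))).image f).card = K * w := by
    rw [card_image_of_injective _ hf]; simp [hX]
  rw [← h1, ← Set.ncard_coe_finset] at hk
  refine hk.trans (Set.ncard_le_ncard ?_ (Set.toFinite _))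
  intro u hu
  obtain ⟨⟨j, x⟩, hp, rfl⟩ := mem_image.1 (mem_coe.1 hu)
  exact h j x (mem_product.1 hp).1

theorem deg_all {k : ℕ} (hT : ∀ s, (T s).card = K) (hk : k ≤ K * w) (hk2 : k + 1 ≤ m * (N * w))
    (v : Vx m σ N K w r) : k ≤ ((gr T).neighborSet v).ncard := by
  classical
  rcases v with a | b | c
  · exact deg_block T hk _ a.1 (T a.2) (hT _)
      (fun j x hj => (adj_centre T a _).2 (Or.inr ⟨j, x, hj, rfl⟩))
  · exact deg_block T hk _ b.1 b.2.2.1 b.2.2.2
      (fun j x hj => (adj_child T b _).2 (Or.inr ⟨j, x, hj, rfl⟩))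
  · let f : (Fin m × Fin N × Fin w) ⊕ Fin r → Vx m σ N K w r := fun p => .inr (.inr p)
    have hf : Function.Injective f := fun p q h => by simpa [f] using h
    have h1 : k ≤ ((univ.erase c).image f).card := by
      rw [card_image_of_injective _ hf, card_erase_of_mem (mem_univ _)]
      simp only [card_univ, Fintype.card_sum, Fintype.card_prod, Fintype.card_fin]
      omega
    rw [← Set.ncard_coe_finset] at h1
    refine h1.trans (Set.ncard_le_ncard ?_ (Set.toFinite _))
    intro u hu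
    obtain ⟨p, hp, rfl⟩ := mem_image.1 (mem_coe.1 hu)
    exact adj_clique T c p (mem_erase.1 hp).1.symm

theorem gr_connected (hT : ∀ s, (T s).card = K) (hm : 0 < m) (hK : 0 < K) (hN : 0 < N)
    (hw : 0 < w) : (gr (m := m) (K := K) (w := w) (r := r) T).Connected := by
  rw [SimpleGraph.connected_iff_exists_forall_reachable]
  let c0 : (Fin m × Fin N × Fin w) ⊕ Fin r := .inl (⟨0, hm⟩, ⟨0, hN⟩, ⟨0, hw⟩)
  have hc : ∀ c, (gr (K := K) T).Reachable (.inr (.inr c0)) (.inr (.inr c)) := by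
    intro c
    by_cases h : c0 = c
    · rw [h]
    · exact (adj_clique T c0 c h).reachable
  refine ⟨.inr (.inr c0), ?_⟩
  rintro (a | b | c)
  · obtain ⟨j, hj⟩ : (T a.2).Nonempty := card_pos.1 (by rw [hT]; exact hK)
    exact (hc _).trans ((adj_centre T a _).2 (Or.inr ⟨j, ⟨0, hw⟩, hj, rfl⟩)).symm.reachable
  · obtain ⟨j, hj⟩ : b.2.2.1.Nonempty := card_pos.1 (by rw [b.2.2.2]; exact hK)
    exact (hc _).trans ((adj_child T b _).2 (Or.inr ⟨j, ⟨0, hw⟩, hj, rfl⟩)).symm.reachable
  · exact hc c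

theorem gr_dom (hm : 0 < m) (hN : 0 < N) (hw : 0 < w) :
    ∃ S : Finset (Vx m σ N K w r), IsDominating (gr T) S ∧ S.card ≤ m * σ + 1 := by
  classical
  let c0 : (Fin m × Fin N × Fin w) ⊕ Fin r := .inl (⟨0, hm⟩, ⟨0, hN⟩, ⟨0, hw⟩)
  refine ⟨insert (.inr (.inr c0)) (univ.image Sum.inl), ?_, ?_⟩
  · rintro (a | b | c) hv
    · exact absurd (mem_insert_of_mem (mem_image_of_mem _ (mem_univ a))) hv
    · exact ⟨.inl (b.1, b.2.1), mem_insert_of_mem (mem_image_of_mem _ (mem_univ _)),
        (adj_child T b _).2 (Or.inl rfl)⟩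
    · refine ⟨_, mem_insert_self _ _, adj_clique T c c0 ?_⟩
      rintro rfl
      exact hv (mem_insert_self _ _)
  · refine (card_insert_le _ _).trans ?_
    have := card_image_le (s := (univ : Finset (Fin m × Fin σ)))
      (f := (Sum.inl : _ → Vx m σ N K w r))
    simp only [card_univ, Fintype.card_prod, Fintype.card_fin] at this
    omega

theorem exists_notMem_of_card {X : Finset (Fin N)} (hX : X.card = K) (hKN : K < N) :
    ∃ j, j ∉ X := by
  by_contra h
  push Not at h
  have : X = univ := eq_univ_iff_forall.2 h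
  rw [this] at hX
  simp at hX
  omega

theorem gr_no_universal (hT : ∀ s, (T s).card = K) (hm : 0 < m) (hσ : 0 < σ) (hKN : K < N)
    (hw : 0 < w) (u : Vx m σ N K w r) : ∃ v, v ≠ u ∧ ¬ (gr T).Adj v u := by
  rcases u with a | b | ⟨i, j, x⟩ | c
  · obtain ⟨j, hj⟩ := exists_notMem_of_card (hT a.2) hKN
    refine ⟨.inr (.inr (.inl (a.1, j, ⟨0, hw⟩))), by simp, fun h => ?_⟩
    have := (adj_centre T a _).1 h.symm
    simp [hj] at this
  · obtain ⟨j, hj⟩ := exists_notMem_of_card b.2.2.2 hKN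
    refine ⟨.inr (.inr (.inl (b.1, j, ⟨0, hw⟩))), by simp, fun h => ?_⟩
    have := (adj_child T b _).1 h.symm
    simp [hj] at this
  · obtain ⟨X, hX, hXK⟩ := exists_subset_card_eq (s := (univ : Finset (Fin N)).erase j) (n := K)
      (by rw [card_erase_of_mem (mem_univ _)]; simp; omega)
    have hj : j ∉ X := fun h => by simpa using hX h
    refine ⟨.inr (.inl (i, ⟨0, hσ⟩, ⟨X, hXK⟩)), by simp, fun h => ?_⟩
    have := (adj_child T _ _).1 h
    simp [hj] at this
  · refine ⟨.inl (⟨0, hm⟩, ⟨0, hσ⟩), by simp, fun h => ?_⟩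
    have := (adj_centre T _ _).1 h
    simp at this

def lab : Vx m σ N K w r → Option (Fin m × (Fin σ ⊕ Fin σ ⊕ Fin N))
  | .inl a => some (a.1, .inl a.2)
  | .inr (.inl b) => some (b.1, .inr (.inl b.2.1))
  | .inr (.inr (.inl c)) => some (c.1, .inr (.inr c.2.1))
  | .inr (.inr (.inr _)) => none

theorem block_bound {t : ℕ} (hT : ∀ s, (T s).card = K) (hK : 0 < K)
    (hhit : ∀ R : Finset (Fin N), R.card ≤ t → ∃ s, Disjoint (T s) R)
    (hN : σ + t + 1 + K ≤ N) (D : Finset (Vx m σ N K w r))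
    (hD : ∀ v, ∃ u ∈ D, (gr T).Adj v u) (i : Fin m) :
    σ + t + 1 ≤ (univ.filter (fun y => some (i, y) ∈ D.image lab)).card := by
  classical
  set E := univ.filter (fun y : Fin σ ⊕ Fin σ ⊕ Fin N => some (i, y) ∈ D.image lab) with hE
  have e1 := card_toLeft_add_card_toRight (u := E)
  have e2 := card_toLeft_add_card_toRight (u := E.toRight)
  set ρ := E.toRight.toRight with hρ
  have hρmem : ∀ j x, (.inr (.inr (.inl (i, j, x))) : Vx m σ N K w r) ∈ D → j ∈ ρ := by
    intro j x h
    simp only [hρ, hE, mem_toRight, mem_filter, mem_univ, true_and]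
    exact mem_image.2 ⟨_, h, rfl⟩
  by_cases hbig : σ + t + 1 ≤ ρ.card
  · omega
  obtain ⟨X, hX, hXK⟩ := exists_subset_card_eq (s := ρᶜ) (n := K)
    (by rw [card_compl, Fintype.card_fin]; omega)
  have hS : E.toLeft = univ := by
    rw [eq_univ_iff_forall]
    intro s
    obtain ⟨u, hu, hadj⟩ := hD (.inr (.inl (i, s, ⟨X, hXK⟩)))
    rcases (adj_child T _ _).1 hadj with rfl | ⟨j, x, hj, rfl⟩
    · simp only [hE, mem_toLeft, mem_filter, mem_univ, true_and]
      exact mem_image.2 ⟨_, hu, rfl⟩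
    · exact absurd (hρmem j x hu) (mem_compl.1 (hX hj))
  have hpick : ∀ s, ∃ j, j ∈ T s := fun s => card_pos.1 (by rw [hT]; exact hK)
  choose pick hpick using hpick
  set A := E.toRight.toLeft with hA
  have hbig2 : t + 1 ≤ (ρ ∪ A.image pick).card := by
    by_contra hcon
    obtain ⟨s, hs⟩ := hhit (ρ ∪ A.image pick) (by omega)
    rw [disjoint_union_right] at hs
    obtain ⟨u, hu, hadj⟩ := hD (.inl (i, s))
    rcases (adj_centre T _ _).1 hadj with ⟨Y, rfl⟩ | ⟨j, x, hj, rfl⟩
    · have : s ∈ A := by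
        simp only [hA, hE, mem_toLeft, mem_toRight, mem_filter, mem_univ, true_and]
        exact mem_image.2 ⟨_, hu, rfl⟩
      exact disjoint_left.1 hs.2 (hpick s) (mem_image_of_mem _ this)
    · exact disjoint_left.1 hs.1 hj (hρmem j x hu)
  have e3 := card_union_le ρ (A.image pick)
  have e4 := card_image_le (s := A) (f := pick)
  have e5 : E.toLeft.card = σ := by rw [hS]; simp
  omega

theorem total_bound {t : ℕ} (hT : ∀ s, (T s).card = K) (hK : 0 < K)
    (hhit : ∀ R : Finset (Fin N), R.card ≤ t → ∃ s, Disjoint (T s) R)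
    (hN : σ + t + 1 + K ≤ N) (D : Finset (Vx m σ N K w r))
    (hD : ∀ v, ∃ u ∈ D, (gr T).Adj v u) : m * (σ + t + 1) ≤ D.card := by
  classical
  let E : Finset (Fin m × (Fin σ ⊕ Fin σ ⊕ Fin N)) := univ.filter (fun p => some p ∈ D.image lab)
  have h1 : E.card ≤ (D.image lab).card := by
    apply card_le_card_of_injOn some
    · intro p hp; exact (mem_filter.1 (mem_coe.1 hp)).2
    · intro p _ q _ h; exact Option.some.inj h
  have h2 : E.card = ∑ i : Fin m, (E.filter (fun p => p.1 = i)).card :=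
    card_eq_sum_card_fiberwise (fun p _ => mem_coe.2 (mem_univ _))
  have h3 : ∀ i ∈ (univ : Finset (Fin m)), σ + t + 1 ≤ (E.filter (fun p => p.1 = i)).card := by
    intro i _
    refine (block_bound T hT hK hhit hN D hD i).trans ?_
    apply card_le_card_of_injOn (fun y => (i, y))
    · intro y hy
      exact mem_coe.2 (mem_filter.2 ⟨mem_filter.2 ⟨mem_univ _, (mem_filter.1 (mem_coe.1 hy)).2⟩, rfl⟩)
    · intro p _ q _ h; exact (Prod.mk.inj h).2
  have h4 := card_nsmul_le_sum _ _ _ h3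
  simp only [card_univ, Fintype.card_fin, smul_eq_mul] at h4
  have h5 := card_image_le (s := D) (f := lab)
  omega

end gadget

/-- The combinatorial lower bound. -/
theorem gadget_lower (n k m σ N K w t : ℕ) (hm : 0 < m) (hσ : 0 < σ) (hK : 0 < K) (hw : 0 < w)
    (hN : σ + t + 1 + K ≤ N) (hk : k ≤ K * w)
    (hn : m * (σ + σ * N.choose K + N * w) ≤ n)
    (hcount : N.choose t * (N.choose K - (N - t).choose K) ^ σ < (N.choose K) ^ σ) :
    m * (t + 1) ≤ M n k + 1 := by
  obtain ⟨T, hT, hhit⟩ := exists_family N K t σ (by omega) hcount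
  obtain ⟨r, hr⟩ := Nat.exists_eq_add_of_le hn
  have hcard : Fintype.card (Vx m σ N K w r) = n := by
    simp only [Fintype.card_sum, Fintype.card_prod, Fintype.card_fin, Fintype.card_finset_len]
    rw [hr]; ring
  have hk2 : k + 1 ≤ m * (N * w) := by
    have h1 : (K + 1) * w ≤ N * w := Nat.mul_le_mul_right _ (by omega)
    have h2 : N * w ≤ m * (N * w) := Nat.le_mul_of_pos_left _ hm
    nlinarith
  have := lower_transport (gr (m := m) (K := K) (w := w) (r := r) T) n k (m * σ + 1)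
    (m * (σ + t + 1)) hcard (gr_connected T hT hm hK (by omega) hw) (deg_all T hT hk hk2)
    (gr_dom T hm (by omega) hw) (gr_no_universal T hT hm hσ (by omega) hw)
    (total_bound T hT hK hhit hN)
  nlinarith

end Pool.Agent.MP_af1bb3_co

end

-- part MP_af1bb3_co.Upper
section

namespace Pool.Agent.MP_af1bb3_co

open Finset

section comb

variable {V : Type} [Fintype V] [DecidableEq V] (G : SimpleGraph V)

/-- `v` lies in the closed neighbourhood of `P`. -/
def Near (P : Finset V) (v : V) : Prop := v ∈ P ∨ ∃ u ∈ P, G.Adj v u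

def Conn (P : Finset V) : Prop := (G.induce (P : Set V)).Connected

def Good (F : Finset (Finset V)) (c : ℕ) : Prop :=
  (∀ P ∈ F, Conn G P) ∧ (∀ v, ∃ P ∈ F, Near G P v) ∧ (F.biUnion id).card ≤ c

variable {G}

omit [Fintype V] [DecidableEq V] in
theorem conn_singleton (v : V) : Conn G {v} := by
  unfold Conn
  rw [coe_singleton, SimpleGraph.induce_singleton_eq_top]
  exact SimpleGraph.connected_top

omit [Fintype V] in
theorem conn_union {P Q : Finset V} {x y : V} (hP : Conn G P) (hQ : Conn G Q) (hx : x ∈ P)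
    (hy : y ∈ Q) (h : x = y ∨ G.Adj x y) : Conn G (P ∪ Q) := by
  unfold Conn at *
  rw [coe_union]
  rcases h with rfl | h
  · exact SimpleGraph.induce_union_connected hP.preconnected hQ.preconnected ⟨x, hx, hy⟩
  · exact SimpleGraph.connected_induce_union hP.preconnected hQ.preconnected hx hy h

omit [Fintype V] in
theorem conn_union_near {P Q : Finset V} {x : V} (hP : Conn G P) (hQ : Conn G Q) (hx : x ∈ P)
    (h : Near G Q x) : Conn G (P ∪ Q) := by
  rcases h with h | ⟨u, hu, h⟩
  · exact conn_union hP hQ hx h (Or.inl rfl)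
  · exact conn_union hP hQ hx hu (Or.inr h)

omit [Fintype V] in
theorem conn_merge (v : V) (A : Finset (Finset V)) (hA : ∀ P ∈ A, Conn G P ∧ Near G P v) :
    Conn G ({v} ∪ A.biUnion id) := by
  induction A using Finset.induction_on with
  | empty => simpa using conn_singleton v
  | insert P A hP ih =>
    have h1 := ih (fun Q hQ => hA Q (mem_insert_of_mem hQ))
    have h2 := hA P (mem_insert_self _ _)
    have h3 := conn_union_near h1 h2.1 (x := v) (by simp) h2.2
    have : ({v} ∪ (insert P A).biUnion id : Finset V) = ({v} ∪ A.biUnion id) ∪ P := by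
      rw [biUnion_insert, union_assoc, union_comm (A.biUnion id)]; rfl
    rwa [this]

omit [Fintype V] [DecidableEq V] in
theorem Near.mono {P Q : Finset V} {v : V} (h : Near G P v) (hPQ : P ⊆ Q) : Near G Q v := by
  rcases h with h | ⟨u, hu, h⟩
  · exact Or.inl (hPQ h)
  · exact Or.inr ⟨u, hPQ hu, h⟩

omit [DecidableEq V] in
open Classical in
theorem averaging {α : Type} [Nonempty V] (F : Finset α) (r : α → V → Prop) (k : ℕ)
    (h : ∀ a ∈ F, k ≤ (univ.filter (fun v => r a v)).card) :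
    ∃ v, F.card * k ≤ Fintype.card V * (F.filter (fun a => r a v)).card := by
  have h1 : ∑ v : V, (F.filter (fun a => r a v)).card
      = ∑ a ∈ F, (univ.filter (fun v => r a v)).card := by
    simp only [card_filter]
    exact sum_comm
  have h2 : F.card * k ≤ ∑ a ∈ F, (univ.filter (fun v => r a v)).card := by
    simpa using card_nsmul_le_sum F _ k h
  have h3 : ∑ _v : V, F.card * k ≤ ∑ v : V, Fintype.card V * (F.filter (fun a => r a v)).card := by
    rw [← mul_sum univ (fun v => (F.filter (fun a => r a v)).card), h1]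
    simp only [sum_const, card_univ, smul_eq_mul]
    exact Nat.mul_le_mul_left _ h2
  obtain ⟨v, -, hv⟩ := exists_le_of_sum_le univ_nonempty h3
  exact ⟨v, hv⟩

omit [DecidableEq V] in
open Classical in
theorem near_card {k : ℕ} (hdeg : ∀ v, k ≤ (G.neighborSet v).ncard) {P : Finset V}
    (hP : P.Nonempty) : k ≤ (univ.filter (fun v => Near G P v)).card := by
  obtain ⟨u, hu⟩ := hP
  refine (hdeg u).trans ?_
  rw [← Set.ncard_coe_finset]
  apply Set.ncard_le_ncard _ (Finset.finite_toSet _)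
  intro v hv
  simp only [coe_filter, mem_univ, true_and, Set.mem_ofPred_eq]
  exact Or.inr ⟨u, hu, (G.mem_neighborSet u v).1 hv |>.symm⟩

omit [Fintype V] [DecidableEq V] in
theorem Conn.nonempty {P : Finset V} (h : Conn G P) : P.Nonempty := by
  obtain ⟨⟨v, hv⟩⟩ := SimpleGraph.Connected.nonempty h
  exact ⟨v, hv⟩

theorem stepB [Nonempty V] {k : ℕ} (hdeg : ∀ v, k ≤ (G.neighborSet v).ncard)
    {F : Finset (Finset V)} {c : ℕ} (hF : Good G F c) :
    ∃ F', Good G F' (c + 1) ∧
      (F'.card : ℝ) ≤ F.card * (1 - (k : ℝ) / Fintype.card V) + 1 := by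
  classical
  obtain ⟨h1, h2, h3⟩ := hF
  obtain ⟨v, hv⟩ := averaging F (fun P v => Near G P v) k
    (fun P hP => by convert near_card hdeg (h1 P hP).nonempty)
  set A := F.filter (fun P => Near G P v) with hA
  set B := F.filter (fun P => ¬ Near G P v) with hB
  have hAB : A.card + B.card = F.card := card_filter_add_card_filter_not _
  refine ⟨insert ({v} ∪ A.biUnion id) B, ⟨?_, ?_, ?_⟩, ?_⟩
  · intro P hP
    rcases mem_insert.1 hP with rfl | hP
    · exact conn_merge v A (fun Q hQ => ⟨h1 Q (mem_filter.1 hQ).1, (mem_filter.1 hQ).2⟩)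
    · exact h1 P (mem_filter.1 hP).1
  · intro x
    obtain ⟨P, hP, hx⟩ := h2 x
    by_cases hPv : Near G P v
    · refine ⟨_, mem_insert_self _ _, hx.mono ?_⟩
      exact (subset_biUnion_of_mem id (mem_filter.2 ⟨hP, hPv⟩)).trans subset_union_right
    · exact ⟨P, mem_insert_of_mem (mem_filter.2 ⟨hP, hPv⟩), hx⟩
  · have : (insert ({v} ∪ A.biUnion id) B).biUnion id ⊆ insert v (F.biUnion id) := by
      intro x hx
      simp only [biUnion_insert, id_eq, mem_union, mem_singleton, mem_biUnion, mem_insert] at hx ⊢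
      rcases hx with (rfl | ⟨P, hP, hx⟩) | ⟨P, hP, hx⟩
      · exact Or.inl rfl
      · exact Or.inr ⟨P, (mem_filter.1 hP).1, hx⟩
      · exact Or.inr ⟨P, (mem_filter.1 hP).1, hx⟩
    calc _ ≤ (insert v (F.biUnion id)).card := card_le_card this
      _ ≤ (F.biUnion id).card + 1 := card_insert_le _ _
      _ ≤ c + 1 := by omega
  · have hn : (0 : ℝ) < Fintype.card V := by exact_mod_cast Fintype.card_pos
    have h4 : ((insert ({v} ∪ A.biUnion id) B).card : ℝ) ≤ B.card + 1 := by
      exact_mod_cast card_insert_le _ _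
    have h5 : (F.card : ℝ) * k ≤ Fintype.card V * A.card := by exact_mod_cast hv
    have h6 : (A.card : ℝ) + B.card = F.card := by exact_mod_cast hAB
    have h7 : (F.card : ℝ) * (k / Fintype.card V) ≤ A.card := by
      rw [← mul_div_assoc, div_le_iff₀ hn]; linarith
    nlinarith

omit [Fintype V] in
theorem stepC (hG : G.Connected) {F : Finset (Finset V)} {c : ℕ} (hF : Good G F c)
    (h2F : 2 ≤ F.card) : ∃ F', Good G F' (c + 2) ∧ F'.card + 1 ≤ F.card := by
  classical
  obtain ⟨h1, h2, h3⟩ := hF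
  obtain ⟨P, hP, Q0, hQ0, hne⟩ := one_lt_card.1 h2F
  have key : ∃ Q ∈ F, Q ≠ P ∧ ∃ x y, Near G P x ∧ Near G Q y ∧ (x = y ∨ G.Adj x y) := by
    by_contra hcon
    push Not at hcon
    obtain ⟨x0, hx0⟩ := (h1 P hP).nonempty
    obtain ⟨y0, hy0⟩ := (h1 Q0 hQ0).nonempty
    have hall : ∀ y, G.Reachable x0 y → Near G P y := by
      intro y hy
      rw [SimpleGraph.reachable_iff_reflTransGen] at hy
      induction hy with
      | refl => exact Or.inl hx0
      | @tail b c' _ hbc ih =>
        obtain ⟨R, hR, hRc⟩ := h2 c'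
        by_cases hRP : R = P
        · exact hRP ▸ hRc
        · exact absurd hbc (hcon R hR hRP b c' ih hRc).2
    exact (hcon Q0 hQ0 hne.symm y0 y0 (hall y0 (hG.preconnected x0 y0)) (Or.inl hy0)).1 rfl
  obtain ⟨Q, hQ, hQP, x, y, hx, hy, hxy⟩ := key
  have c1 : Conn G ({x} ∪ P) := conn_union_near (conn_singleton x) (h1 P hP) (by simp) hx
  have c2 : Conn G ({y} ∪ Q) := conn_union_near (conn_singleton y) (h1 Q hQ) (by simp) hy
  have c3 : Conn G (({x} ∪ P) ∪ ({y} ∪ Q)) := conn_union c1 c2 (by simp) (by simp) hxy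
  refine ⟨insert (({x} ∪ P) ∪ ({y} ∪ Q)) ((F.erase P).erase Q), ⟨?_, ?_, ?_⟩, ?_⟩
  · intro R hR
    rcases mem_insert.1 hR with rfl | hR
    · exact c3
    · exact h1 R (mem_of_mem_erase (mem_of_mem_erase hR))
  · intro v
    obtain ⟨R, hR, hv⟩ := h2 v
    by_cases hRP : R = P
    · subst hRP
      exact ⟨_, mem_insert_self _ _, hv.mono (subset_union_right.trans subset_union_left)⟩
    by_cases hRQ : R = Q
    · subst hRQ
      exact ⟨_, mem_insert_self _ _, hv.mono (subset_union_right.trans subset_union_right)⟩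
    · exact ⟨R, mem_insert_of_mem (mem_erase.2 ⟨hRQ, mem_erase.2 ⟨hRP, hR⟩⟩), hv⟩
  · have : (insert (({x} ∪ P) ∪ ({y} ∪ Q)) ((F.erase P).erase Q)).biUnion id
        ⊆ insert x (insert y (F.biUnion id)) := by
      intro z hz
      simp only [biUnion_insert, id_eq, mem_union, mem_singleton, mem_biUnion, mem_insert] at hz ⊢
      rcases hz with ((rfl | hz) | (rfl | hz)) | ⟨R, hR, hz⟩
      · exact Or.inl rfl
      · exact Or.inr (Or.inr ⟨P, hP, hz⟩)
      · exact Or.inr (Or.inl rfl)
      · exact Or.inr (Or.inr ⟨Q, hQ, hz⟩)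
      · exact Or.inr (Or.inr ⟨R, mem_of_mem_erase (mem_of_mem_erase hR), hz⟩)
    calc _ ≤ (insert x (insert y (F.biUnion id))).card := card_le_card this
      _ ≤ (insert y (F.biUnion id)).card + 1 := card_insert_le _ _
      _ ≤ (F.biUnion id).card + 1 + 1 := by gcongr; exact card_insert_le _ _
      _ ≤ c + 2 := by omega
  · have e1 : ((F.erase P).erase Q).card + 1 = (F.erase P).card :=
      card_erase_add_one (mem_erase.2 ⟨hQP, hQ⟩)
    have e2 : (F.erase P).card + 1 = F.card := card_erase_add_one hP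
    have e3 := card_insert_le (({x} ∪ P) ∪ ({y} ∪ Q)) ((F.erase P).erase Q)
    omega

omit [Fintype V] in
theorem finish (hG : G.Connected) (m : ℕ) : ∀ (F : Finset (Finset V)) (c : ℕ), F.card ≤ m →
    Good G F c → connDomNum G ≤ c + 2 * m := by
  induction m with
  | zero =>
    intro F c hm hF
    obtain ⟨v⟩ := hG.nonempty
    obtain ⟨P, hP, -⟩ := hF.2.1 v
    have := card_pos.2 ⟨P, hP⟩
    omega
  | succ m ih =>
    intro F c hm hF
    by_cases h2 : 2 ≤ F.card
    · obtain ⟨F', hF', hc⟩ := stepC hG hF h2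
      have := ih F' (c + 2) (by omega) hF'
      omega
    · obtain ⟨v⟩ := hG.nonempty
      obtain ⟨P, hP, -⟩ := hF.2.1 v
      have hF1 : ∀ Q ∈ F, Q = P := fun Q hQ => card_le_one.1 (by omega) Q hQ P hP
      have hle : connDomNum G ≤ P.card := by
        apply Nat.sInf_le
        refine ⟨P, ?_, hF.1 P hP, rfl⟩
        intro x hx
        obtain ⟨Q, hQ, hxQ⟩ := hF.2.1 x
        rw [hF1 Q hQ] at hxQ
        rcases hxQ with h | h
        · exact absurd h hx
        · exact h
      have : P.card ≤ (F.biUnion id).card := card_le_card (subset_biUnion_of_mem id hP)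
      have := hF.2.2
      omega

theorem iterB [Nonempty V] {k : ℕ} (hk : 0 < k) (hkn : k ≤ Fintype.card V)
    (hdeg : ∀ v, k ≤ (G.neighborSet v).ncard)
    {F : Finset (Finset V)} {c : ℕ} (hF : Good G F c) (j : ℕ) :
    ∃ F', Good G F' (c + j) ∧
      (F'.card : ℝ) ≤ F.card * (1 - (k : ℝ) / Fintype.card V) ^ j + Fintype.card V / k := by
  have hn : (0 : ℝ) < Fintype.card V := by exact_mod_cast Fintype.card_pos
  have hk' : (0 : ℝ) < k := by exact_mod_cast hk
  have hp : 0 ≤ 1 - (k : ℝ) / Fintype.card V := by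
    rw [sub_nonneg, div_le_one hn]; exact_mod_cast hkn
  induction j with
  | zero => exact ⟨F, hF, by simp; positivity⟩
  | succ j ih =>
    obtain ⟨F1, hF1, h1⟩ := ih
    obtain ⟨F2, hF2, h2⟩ := stepB hdeg hF1
    refine ⟨F2, hF2, h2.trans ?_⟩
    have h3 := mul_le_mul_of_nonneg_right h1 hp
    have h4 : (Fintype.card V : ℝ) / k * (1 - (k : ℝ) / Fintype.card V) + 1 = Fintype.card V / k := by
      field_simp; ring
    rw [pow_succ]
    nlinarith

omit [DecidableEq V] in
theorem exists_min_dom : ∃ S : Finset V, IsDominating G S ∧ S.card = domNum G := by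
  have : {m : ℕ | ∃ S : Finset V, IsDominating G S ∧ S.card = m}.Nonempty :=
    ⟨_, univ, fun v hv => absurd (mem_univ v) hv, rfl⟩
  exact Nat.sInf_mem this

theorem conn_le [Nonempty V] (hG : G.Connected) {k : ℕ} (hk : 0 < k) (hkn : k ≤ Fintype.card V)
    (hdeg : ∀ v, k ≤ (G.neighborSet v).ncard) (j : ℕ) :
    (connDomNum G : ℝ) ≤ domNum G + j +
      2 * (domNum G * (1 - (k : ℝ) / Fintype.card V) ^ j + Fintype.card V / k) := by
  obtain ⟨S, hS, hSc⟩ := exists_min_dom (G := G)
  have hn : (0 : ℝ) < Fintype.card V := by exact_mod_cast Fintype.card_pos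
  have hp : 0 ≤ 1 - (k : ℝ) / Fintype.card V := by
    rw [sub_nonneg, div_le_one hn]; exact_mod_cast hkn
  have hgood : Good G (S.image (fun v => ({v} : Finset V))) (domNum G) := by
    refine ⟨?_, ?_, ?_⟩
    · intro P hP
      obtain ⟨v, -, rfl⟩ := mem_image.1 hP
      exact conn_singleton v
    · intro v
      by_cases hv : v ∈ S
      · exact ⟨{v}, mem_image.2 ⟨v, hv, rfl⟩, Or.inl (by simp)⟩
      · obtain ⟨u, hu, huv⟩ := hS v hv
        exact ⟨{u}, mem_image.2 ⟨u, hu, rfl⟩, Or.inr ⟨u, by simp, huv⟩⟩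
    · rw [← hSc]
      apply card_le_card
      intro x hx
      simp only [mem_biUnion, mem_image, id_eq] at hx
      obtain ⟨P, ⟨v, hv, rfl⟩, hx⟩ := hx
      rwa [mem_singleton.1 hx]
  obtain ⟨F', hF', hc⟩ := iterB hk hkn hdeg hgood j
  have h1 := finish hG F'.card F' _ le_rfl hF'
  have h2 : (connDomNum G : ℝ) ≤ domNum G + j + 2 * F'.card := by exact_mod_cast h1
  have h3 : ((S.image (fun v => ({v} : Finset V))).card : ℝ) ≤ domNum G := by
    rw [← hSc]; exact_mod_cast card_image_le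
  have h4 := mul_le_mul_of_nonneg_right h3 (pow_nonneg hp j)
  linarith

open Classical in
theorem greedy_dom [Nonempty V] {k : ℕ} (hkn : k ≤ Fintype.card V)
    (hdeg : ∀ v, k ≤ (G.neighborSet v).ncard) (j : ℕ) :
    ∃ S : Finset V, S.card ≤ j ∧ ((univ.filter (fun v => ¬ Near G S v)).card : ℝ) ≤
      Fintype.card V * (1 - (k : ℝ) / Fintype.card V) ^ j := by
  have hn : (0 : ℝ) < Fintype.card V := by exact_mod_cast Fintype.card_pos
  have hp : 0 ≤ 1 - (k : ℝ) / Fintype.card V := by
    rw [sub_nonneg, div_le_one hn]; exact_mod_cast hkn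
  induction j with
  | zero =>
    refine ⟨∅, by simp, ?_⟩
    simp only [pow_zero, mul_one, Nat.cast_le]
    exact card_le_univ _
  | succ j ih =>
    obtain ⟨S, hS, h1⟩ := ih
    set U := univ.filter (fun v => ¬ Near G S v) with hU
    obtain ⟨v, hv⟩ := averaging U (fun a v => Near G {a} v) k
      (fun a _ => by convert near_card hdeg (singleton_nonempty a))
    set A := U.filter (fun a => Near G {a} v) with hA
    set B := U.filter (fun a => ¬ Near G {a} v) with hB
    have hAB : A.card + B.card = U.card := card_filter_add_card_filter_not _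
    refine ⟨insert v S, (card_insert_le _ _).trans (by omega), ?_⟩
    have hsub : univ.filter (fun x => ¬ Near G (insert v S) x) ⊆ B := by
      intro x hx
      have hx' := (mem_filter.1 hx).2
      refine mem_filter.2 ⟨mem_filter.2 ⟨mem_univ _, fun h => hx' (h.mono (subset_insert _ _))⟩, ?_⟩
      rintro (h | ⟨u, hu, h⟩)
      · exact hx' (Or.inl (by rw [← mem_singleton.1 h]; exact mem_insert_self _ _))
      · rw [mem_singleton.1 hu] at h
        exact hx' (Or.inr ⟨v, mem_insert_self _ _, h.symm⟩)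
    have h4 : ((univ.filter (fun x => ¬ Near G (insert v S) x)).card : ℝ) ≤ B.card := by
      exact_mod_cast card_le_card hsub
    have h5 : (U.card : ℝ) * k ≤ Fintype.card V * A.card := by exact_mod_cast hv
    have h6 : (A.card : ℝ) + B.card = U.card := by exact_mod_cast hAB
    have h7 : (U.card : ℝ) * (k / Fintype.card V) ≤ A.card := by
      rw [← mul_div_assoc, div_le_iff₀ hn]; linarith
    have h8 := mul_le_mul_of_nonneg_right h1 hp
    rw [pow_succ]
    nlinarith

theorem dom_le [Nonempty V] {k : ℕ} (hkn : k ≤ Fintype.card V)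
    (hdeg : ∀ v, k ≤ (G.neighborSet v).ncard) (j : ℕ) :
    (domNum G : ℝ) ≤ j + Fintype.card V * (1 - (k : ℝ) / Fintype.card V) ^ j := by
  classical
  obtain ⟨S, hS, h1⟩ := greedy_dom hkn hdeg j
  set U := univ.filter (fun v => ¬ Near G S v) with hU
  have h2 : domNum G ≤ (S ∪ U).card := by
    apply Nat.sInf_le
    refine ⟨S ∪ U, ?_, rfl⟩
    intro v hv
    rw [mem_union, not_or] at hv
    have : Near G S v := by
      by_contra h
      exact hv.2 (mem_filter.2 ⟨mem_univ _, h⟩)
    rcases this with h | ⟨u, hu, h⟩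
    · exact absurd h hv.1
    · exact ⟨u, mem_union_left _ hu, h⟩
  have h3 := card_union_le S U
  have h4 : (domNum G : ℝ) ≤ j + U.card := by exact_mod_cast (by omega : domNum G ≤ j + U.card)
  have h5 : (U.card : ℝ) ≤ Fintype.card V * (1 - (k : ℝ) / Fintype.card V) ^ j := by convert h1
  linarith

end comb

end Pool.Agent.MP_af1bb3_co

end

-- part MP_af1bb3_co.Params
section

namespace Pool.Agent.MP_af1bb3_co

open Real Filter

theorem choose_ratio (N K t : ℕ) (h : K + t ≤ N) (ρ : ℝ) (hρ0 : 0 ≤ ρ)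
    (hρ : ρ * N ≤ (N : ℝ) - K - t) (i : ℕ) (hi : i ≤ t) :
    (N.choose K : ℝ) * ρ ^ i ≤ (N - i).choose K := by
  induction i with
  | zero => simp
  | succ i ih =>
    have ih' := ih (by omega)
    have h1 := Nat.choose_mul_succ_eq (N - (i + 1)) K
    have e : N - (i + 1) + 1 = N - i := by omega
    rw [e] at h1
    have h2 : ((N - (i + 1)).choose K : ℝ) * ((N : ℝ) - i) =
        (N - i).choose K * ((N : ℝ) - i - K) := by
      have := congrArg (Nat.cast : ℕ → ℝ) h1
      push_cast [Nat.cast_sub (show i ≤ N by omega), Nat.cast_sub (show K ≤ N - i by omega)] at this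
      exact this
    have hit : (i : ℝ) + 1 ≤ t := by exact_mod_cast hi
    have hKt : (K : ℝ) + t ≤ N := by exact_mod_cast h
    have hK0 : (0 : ℝ) ≤ K := by positivity
    have hi0 : (0 : ℝ) ≤ i := by positivity
    have hpos : (0 : ℝ) < (N : ℝ) - i := by linarith
    have hc0 : (0 : ℝ) ≤ (N - i).choose K := by positivity
    have h3 : ρ * ((N : ℝ) - i) ≤ (N : ℝ) - i - K := by nlinarith
    have h4 : ((N - i).choose K : ℝ) * ρ ≤ (N - (i + 1)).choose K := by
      apply le_of_mul_le_mul_right _ hpos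
      rw [h2, mul_assoc]
      exact mul_le_mul_of_nonneg_left h3 hc0
    calc (N.choose K : ℝ) * ρ ^ (i + 1) = (N.choose K : ℝ) * ρ ^ i * ρ := by ring
      _ ≤ (N - i).choose K * ρ := mul_le_mul_of_nonneg_right ih' hρ0
      _ ≤ _ := h4

theorem count_ok (N K t σ : ℕ) (h : K + t ≤ N) (hN : 0 < N) (ρ : ℝ) (hρ0 : 0 ≤ ρ)
    (hρ : ρ * N ≤ (N : ℝ) - K - t) (hc : t * log N < σ * ρ ^ t) :
    N.choose t * (N.choose K - (N - t).choose K) ^ σ < (N.choose K) ^ σ := by
  have h1 := choose_ratio N K t h ρ hρ0 hρ t le_rfl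
  have hle : (N - t).choose K ≤ N.choose K := Nat.choose_le_choose K (by omega)
  have hC : (0 : ℝ) < N.choose K := by exact_mod_cast Nat.choose_pos (by omega)
  have hNr : (0 : ℝ) < N := by exact_mod_cast hN
  have h2 : ((N.choose K - (N - t).choose K : ℕ) : ℝ) ≤ N.choose K * exp (-ρ ^ t) := by
    rw [Nat.cast_sub hle]
    have := add_one_le_exp (-ρ ^ t)
    nlinarith
  have h3 : (((N.choose K - (N - t).choose K : ℕ) : ℝ)) ^ σ
      ≤ (N.choose K : ℝ) ^ σ * exp (-(σ * ρ ^ t)) := by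
    calc _ ≤ ((N.choose K : ℝ) * exp (-ρ ^ t)) ^ σ := pow_le_pow_left₀ (by positivity) h2 σ
      _ = _ := by rw [mul_pow, ← exp_nat_mul]; congr 2; ring
  have h4 : (N.choose t : ℝ) ≤ exp (t * log N) := by
    rw [exp_nat_mul, exp_log hNr]
    exact_mod_cast Nat.choose_le_pow N t
  have h5 : exp (t * log N) * exp (-(σ * ρ ^ t)) < 1 := by
    rw [← exp_add, exp_lt_one_iff]; linarith
  have h6 : (N.choose t : ℝ) * (((N.choose K - (N - t).choose K : ℕ) : ℝ)) ^ σ
      < (N.choose K : ℝ) ^ σ := by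
    calc _ ≤ exp (t * log N) * ((N.choose K : ℝ) ^ σ * exp (-(σ * ρ ^ t))) := by gcongr
      _ = (N.choose K : ℝ) ^ σ * (exp (t * log N) * exp (-(σ * ρ ^ t))) := by ring
      _ < (N.choose K : ℝ) ^ σ * 1 := by gcongr
      _ = _ := mul_one _
  exact_mod_cast h6

theorem lam_lower {k n : ℝ} (hk : 0 < k) (hkn : k < n) : k / n ≤ log (n / (n - k)) := by
  have h1 : 0 < n - k := by linarith
  have h2 : 0 < n := by linarith
  have := one_sub_inv_le_log_of_pos (div_pos h2 h1)
  refine le_trans (le_of_eq ?_) this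
  field_simp; ring

theorem lam_upper {k n : ℝ} (hk : 0 < k) (hkn : k < n) : log (n / (n - k)) ≤ k / (n - k) := by
  have h1 : 0 < n - k := by linarith
  have h2 : 0 < n := by linarith
  refine (log_le_sub_one_of_pos (div_pos h2 h1)).trans (le_of_eq ?_)
  field_simp; ring

theorem lam_exp {k n : ℝ} (hk : 0 < k) (hkn : k < n) :
    1 - k / n = exp (-log (n / (n - k))) := by
  have h1 : 0 < n - k := by linarith
  have h2 : 0 < n := by linarith
  rw [exp_neg, exp_log (div_pos h2 h1)]
  field_simp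

theorem ev_sq_lt_exp (A a : ℝ) (ha : 0 < a) : ∀ᶠ x : ℝ in atTop, A * x ^ 2 < exp (a * x) := by
  filter_upwards [eventually_gt_atTop (0 : ℝ), eventually_gt_atTop (6 * A / a ^ 3)] with x hx hx2
  have h1 := pow_div_factorial_le_exp (a * x) (by positivity) 3
  have h2 : 6 * A < x * a ^ 3 := by rwa [div_lt_iff₀ (by positivity)] at hx2
  refine lt_of_lt_of_le ?_ h1
  simp only [Nat.factorial, Nat.succ_eq_add_one]
  have hx3 : 0 < x ^ 2 := by positivity
  have : (a * x) ^ 3 / ((2 + 1) * ((1 + 1) * ((0 + 1) * 1)) : ℕ) = (x * a ^ 3 / 6) * x ^ 2 := by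
    norm_num; ring
  nlinarith

theorem block_params (k n : ℕ) (b e C η : ℝ) (hb0 : 0 < b) (hb1 : b ≤ 1) (he0 : 0 < e)
    (he1 : e < 1) (hC : 0 < C)
    (hη : η = b / 2 * (1 - exp (-(e / C)))) (hk : 0 < k)
    (hlo : (k : ℝ) ≤ (1 - b) * n) (hhi : (n : ℝ) ≤ C * k)
    (E1 : 16 ≤ b * log k) (E2 : 12 * log k ≤ η * exp (log k / 2)) (E3 : 12 ≤ η * log k)
    (E4 : 12 * C * log (log k) ≤ η * log k)
    (E5 : C * log (log k) ^ 2 < b / 32 * exp (e * log (log k))) :
    ∃ σ N K w t : ℕ, 0 < σ ∧ 0 < K ∧ 0 < w ∧ σ + t + 1 + K ≤ N ∧ k ≤ K * w ∧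
      σ + σ * N.choose K + N * w ≤ n ∧
      N.choose t * (N.choose K - (N - t).choose K) ^ σ < (N.choose K) ^ σ ∧
      (1 - 2 * e) * (log (log k) / log (n / (n - k))) ≤ t + 1 := by
  have hkr : (0 : ℝ) < k := by exact_mod_cast hk
  set L := log k with hL
  set LL := log L with hLL
  have hn0 : (0 : ℝ) < n := by
    by_contra h
    have : (n : ℝ) = 0 := le_antisymm (not_lt.1 h) (by positivity)
    rw [this] at hlo; linarith
  have hkn : (k : ℝ) < n := by linarith [mul_pos hb0 hn0]
  set lam := log ((n : ℝ) / (n - k)) with hlam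
  set p := (k : ℝ) / n with hp
  have hpb : b ≤ 1 - p := by
    have : p ≤ 1 - b := by rw [hp, div_le_iff₀ hn0]; exact hlo
    linarith
  have hp0 : 0 < p := by positivity
  have hpC : 1 / C ≤ p := by rw [hp, div_le_div_iff₀ hC hn0]; linarith
  have hlamp : p ≤ lam := lam_lower hkr hkn
  have hlam0 : 0 < lam := by linarith
  have hexp : 1 - p = exp (-lam) := lam_exp hkr hkn
  have hx1 : exp (-(e / C)) < 1 := by rw [exp_lt_one_iff]; have := div_pos he0 hC; linarith
  have hx0 : 0 < exp (-(e / C)) := exp_pos _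
  have hη0 : 0 < η := by rw [hη]; have : 0 < 1 - exp (-(e / C)) := by linarith
                         positivity
  have hηb : η ≤ b / 2 := by rw [hη]; linarith [mul_pos hb0 hx0]
  have hL16 : 16 ≤ L := by
    have hL0 : 0 ≤ L := by
      by_contra h
      linarith [mul_pos hb0 (neg_pos.2 (not_le.1 h))]
    linarith [mul_le_mul_of_nonneg_right hb1 hL0]
  have hLL0 : 0 ≤ LL := log_nonneg (by linarith)
  have hkL : (k : ℝ) = exp (L / 2) * exp (L / 2) := by
    rw [← exp_add, add_halves, hL, exp_log hkr]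
  have hE0 : 1 ≤ exp (L / 2) := one_le_exp (by linarith)
  -- the parameters
  set N := ⌊L / 2⌋₊ with hN
  have hN1 : (N : ℝ) ≤ L / 2 := Nat.floor_le (by linarith)
  have hN2 : L / 4 ≤ N := by have := Nat.lt_floor_add_one (L / 2); linarith
  have hNpos : (0 : ℝ) < N := by linarith
  have hNpos' : 0 < N := by exact_mod_cast hNpos
  have h2N : ((2 ^ N : ℕ) : ℝ) ≤ exp (L / 2) := by
    push_cast
    calc (2 : ℝ) ^ N ≤ exp 1 ^ N := by
          apply pow_le_pow_left₀ (by norm_num)
          have := add_one_le_exp (1 : ℝ); linarith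
      _ = exp N := by rw [← exp_nat_mul, mul_one]
      _ ≤ _ := exp_le_exp.2 hN1
  set Z := N + N * 2 ^ N with hZ
  have hZr : (Z : ℝ) + N ≤ 2 * L * exp (L / 2) := by
    have : (Z : ℝ) = N + N * ((2 ^ N : ℕ) : ℝ) := by rw [hZ]; push_cast; ring
    rw [this]
    have h1 : (N : ℝ) * ((2 ^ N : ℕ) : ℝ) ≤ L / 2 * exp (L / 2) := by gcongr
    have h2 : L * 1 ≤ L * exp (L / 2) := mul_le_mul_of_nonneg_left hE0 (by linarith)
    linarith
  have herr : 6 * (2 * L * exp (L / 2)) ≤ η * k := by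
    rw [hkL]
    have := mul_le_mul_of_nonneg_right E2 (exp_pos (L / 2)).le
    linarith
  have hη1 : η ≤ 1 / 2 := by linarith
  have hZn : Z + N ≤ n := by
    have : (Z : ℝ) + N ≤ n := by linarith [mul_le_mul_of_nonneg_right hη1 hkr.le]
    exact_mod_cast this
  set w := (n - Z) / N with hw
  have hw0 : 0 < w := Nat.div_pos (by omega) hNpos'
  have hw1 : N * w ≤ n - Z := Nat.mul_div_le _ _
  have hw2 : n - Z < N * (w + 1) := Nat.lt_mul_div_succ _ hNpos'
  have hwr : (n : ℝ) - 2 * L * exp (L / 2) ≤ N * w := by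
    have h1 : n ≤ N * w + (Z + N) := by
      have : N * (w + 1) = N * w + N := by ring
      omega
    have h2 : (n : ℝ) ≤ N * w + (Z + N) := by exact_mod_cast h1
    linarith
  have hwpos : (0 : ℝ) < w := by exact_mod_cast hw0
  set K := ⌈(k : ℝ) / w⌉₊ with hK
  have hK0 : 0 < K := Nat.ceil_pos.2 (by positivity)
  have hK1 : (k : ℝ) / w ≤ K := Nat.le_ceil _
  have hK2 : (K : ℝ) < k / w + 1 := Nat.ceil_lt_add_one (by positivity)
  have hkK : k ≤ K * w := by
    rw [div_le_iff₀ hwpos] at hK1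
    exact_mod_cast hK1
  have hkw : (k : ℝ) / w ≤ (p + η / 3) * N := by
    rw [div_le_iff₀ hwpos]
    have hpn : p * n = k := by rw [hp]; field_simp
    have h1 : (p + η / 3) * ((n : ℝ) - 2 * L * exp (L / 2)) ≤ (p + η / 3) * (N * w) :=
      mul_le_mul_of_nonneg_left hwr (by positivity)
    have h2 : 0 ≤ 2 * L * exp (L / 2) := by positivity
    have h3 : (p + η / 3) * (2 * L * exp (L / 2)) ≤ 2 * (2 * L * exp (L / 2)) :=
      mul_le_mul_of_nonneg_right (by linarith) h2
    have h4 : η * k ≤ η * n := mul_le_mul_of_nonneg_left hkn.le hη0.le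
    linarith
  set t := ⌊(1 - e) * LL / ((1 + e) * lam)⌋₊ with ht
  have ht0 : 0 ≤ (1 - e) * LL / ((1 + e) * lam) := by
    apply div_nonneg (mul_nonneg (by linarith) hLL0) (by positivity)
  have ht1 : (t : ℝ) ≤ (1 - e) * LL / ((1 + e) * lam) := Nat.floor_le ht0
  have ht2 : (1 - e) * LL / ((1 + e) * lam) < t + 1 := Nat.lt_floor_add_one _
  have ht3 : (t : ℝ) * ((1 + e) * lam) ≤ (1 - e) * LL := by
    rwa [le_div_iff₀ (by positivity)] at ht1
  have htr0 : (0 : ℝ) ≤ t := by positivity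
  have htC : (t : ℝ) ≤ C * LL := by
    have h1 : 1 ≤ C * lam := by
      have : 1 / C ≤ lam := hpC.trans hlamp
      rw [div_le_iff₀ hC] at this; linarith
    have h2 : (t : ℝ) * lam ≤ LL := by
      linarith [mul_nonneg he0.le (mul_nonneg htr0 hlam0.le), mul_nonneg he0.le hLL0]
    linarith [mul_le_mul_of_nonneg_left h2 hC.le, mul_le_mul_of_nonneg_left h1 htr0]
  have hroom : (1 - p - η) * N ≤ (N : ℝ) - K - t := by
    have h0 := mul_le_mul_of_nonneg_left hN2 hη0.le
    have h1 : 1 ≤ η / 3 * N := by linarith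
    have h2 : (t : ℝ) ≤ η / 3 * N := by linarith
    linarith
  set σ := ⌊b * N / 4⌋₊ with hσ
  have hbL := mul_le_mul_of_nonneg_left hN2 hb0.le
  have hbN : 1 ≤ b * N / 4 := by linarith
  have hσ1 : (σ : ℝ) ≤ b * N / 4 := Nat.floor_le (by linarith)
  have hσ0 : 0 < σ := Nat.floor_pos.2 hbN
  have hσ2 : b * N / 8 ≤ σ := by
    have h1 := Nat.lt_floor_add_one (b * N / 4)
    have h2 : (1 : ℝ) ≤ σ := by exact_mod_cast hσ0
    linarith
  have hfit : σ + t + 1 + K ≤ N := by
    have h0 : b / 2 * N ≤ (1 - p - η) * N := mul_le_mul_of_nonneg_right (by linarith) hNpos.le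
    have : (σ : ℝ) + t + 1 + K ≤ N := by linarith
    exact_mod_cast this
  have hσN : σ ≤ N := by omega
  refine ⟨σ, N, K, w, t, hσ0, hK0, hw0, hfit, hkK, ?_, ?_, ?_⟩
  · have h1 : σ * N.choose K ≤ N * 2 ^ N := Nat.mul_le_mul hσN (Nat.choose_le_two_pow _ _)
    omega
  · have hρ : exp (-((1 + e) * lam)) ≤ 1 - p - η := by
      have h1 : exp (-((1 + e) * lam)) = (1 - p) * exp (-(e * lam)) := by
        rw [hexp, ← exp_add]; congr 1; ring
      have h2 : exp (-(e * lam)) ≤ exp (-(e / C)) := by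
        apply exp_le_exp.2
        have := mul_le_mul_of_nonneg_left (hpC.trans hlamp) he0.le
        rw [mul_one_div] at this; linarith
      rw [h1, hη]
      have h3 : (1 - p) * exp (-(e * lam)) ≤ (1 - p) * exp (-(e / C)) :=
        mul_le_mul_of_nonneg_left h2 (by linarith)
      have h4 : b / 2 * (1 - exp (-(e / C))) ≤ (1 - p) * (1 - exp (-(e / C))) :=
        mul_le_mul_of_nonneg_right (by linarith) (by linarith)
      linarith
    apply count_ok N K t σ (by omega) hNpos' (exp (-((1 + e) * lam))) (exp_pos _).le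
      ((mul_le_mul_of_nonneg_right hρ hNpos.le).trans hroom)
    have h1 : log N ≤ LL := log_le_log hNpos (by linarith)
    have h2 : (t : ℝ) * log N ≤ C * LL * LL := by
      calc (t : ℝ) * log N ≤ t * LL := mul_le_mul_of_nonneg_left h1 htr0
        _ ≤ C * LL * LL := mul_le_mul_of_nonneg_right htC hLL0
    have h3 : exp (-((1 - e) * LL)) ≤ exp (-((1 + e) * lam)) ^ t := by
      rw [← exp_nat_mul]; apply exp_le_exp.2; linarith
    have h4 : exp (e * LL) = L * exp (-((1 - e) * LL)) := by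
      have : L = exp LL := by rw [hLL, exp_log (by linarith)]
      conv_rhs => rw [this, ← exp_add]
      congr 1; ring
    have h5 : b / 32 * L ≤ σ := by linarith
    calc (t : ℝ) * log N ≤ C * LL ^ 2 := by linarith
      _ < b / 32 * exp (e * LL) := E5
      _ = b / 32 * L * exp (-((1 - e) * LL)) := by rw [h4]; ring
      _ ≤ σ * exp (-((1 + e) * lam)) ^ t := by gcongr
  · refine le_trans ?_ ht2.le
    rw [← mul_div_assoc, div_le_div_iff₀ hlam0 (by positivity)]
    have h1 : 0 ≤ LL * lam := by positivity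
    have h2 : (1 - 2 * e) * (1 + e) ≤ 1 - e := by linarith [mul_pos he0 he0]
    linarith [mul_le_mul_of_nonneg_right h2 h1]

end Pool.Agent.MP_af1bb3_co

end
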